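import Pool.Agent.H485R3.Hodge.Ext
import Pool.Agent.H485R3.Hodge.Balance
import Pool.Agent.H485R3.Match

/-!
# Hodge classes on products of structures of K3 type are combinations of products of pairings
-/

set_option autoImplicit false

namespace Pool.Agent.Q73.CM

open Pool.Agent.H485R3.Hodge NumberField NumberField.IsCMField

section span

variable {κ : Type*} [Fintype κ] [DecidableEq κ] {F : κ → Type*} [∀ k, Field (F k)]
  [∀ k, Algebra ℚ (F k)] [∀ k, FiniteDimensional ℚ (F k)]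

/-- the complexification of a form, as a function -/
noncomputable def cx (ψ : MultilinearMap ℚ F ℚ) : (∀ k, F k) → ℂ := fun v => ((ψ v : ℚ) : ℂ)

/-- a rational form whose monomials are in the complex span of a set of rational forms is in the
rational span -/
theorem mem_span_of_mono (φ : MultilinearMap ℚ F ℚ) (S : Set (MultilinearMap ℚ F ℚ))
    (h : ∀ σ : (∀ k, F k →ₐ[ℚ] ℂ), coef φ σ ≠ 0 →
      (fun v : (∀ k, F k) => ∏ k, σ k (v k)) ∈ Submodule.span ℂ (cx '' S)) :
    φ ∈ Submodule.span ℚ S := by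
  classical
  by_contra hnot
  obtain ⟨f, hf, hf0⟩ := Submodule.exists_dual_map_eq_bot_of_notMem hnot inferInstance
  have hfS : ∀ ψ, ψ ∈ S → f ψ = 0 := by
    intro ψ hψ
    have h1 : f ψ ∈ (Submodule.span ℚ S).map f := ⟨ψ, Submodule.subset_span hψ, rfl⟩
    rw [hf0] at h1
    exact (Submodule.mem_bot ℚ).1 h1
  let δ : (∀ k, Fin (Module.finrank ℚ (F k))) → MultilinearMap ℚ F ℚ :=
    fun J => (MultilinearMap.mkPiAlgebra ℚ κ ℚ).compLinearMap (fun k => (bs (F k)).coord (J k))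
  have hδ : ∀ J v, δ J v = ∏ k, (bs (F k)).repr (v k) (J k) := by
    intro J v
    change (MultilinearMap.mkPiAlgebra ℚ κ ℚ) (fun k => (bs (F k)).coord (J k) (v k)) = _
    rw [MultilinearMap.mkPiAlgebra_apply]
    rfl
  have hexp : ∀ ψ : MultilinearMap ℚ F ℚ, ψ = ∑ J, ψ (fun k => bs (F k) (J k)) • δ J := by
    intro ψ
    ext v
    rw [expand ψ v, sum_apply]
    refine Finset.sum_congr rfl fun J _ => ?_
    rw [smul_apply, hδ, smul_eq_mul, mul_comm]
  let fC : ((∀ k, F k) → ℂ) →ₗ[ℂ] ℂ :=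
    ∑ J : (∀ k, Fin (Module.finrank ℚ (F k))),
      ((f (δ J) : ℚ) : ℂ) • LinearMap.proj (fun k => bs (F k) (J k))
  have hfCa : ∀ Φ, fC Φ = ∑ J : (∀ k, Fin (Module.finrank ℚ (F k))),
      ((f (δ J) : ℚ) : ℂ) * Φ (fun k => bs (F k) (J k)) := by
    intro Φ
    simp [fC, LinearMap.sum_apply]
  have hfC : ∀ ψ : MultilinearMap ℚ F ℚ, fC (cx ψ) = ((f ψ : ℚ) : ℂ) := by
    intro ψ
    rw [hfCa]
    conv_rhs => rw [hexp ψ, map_sum]
    push_cast
    refine Finset.sum_congr rfl fun J _ => ?_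
    rw [map_smul, smul_eq_mul]
    push_cast
    rw [mul_comm]
    rfl
  have hkill : Submodule.span ℂ (cx '' S) ≤ LinearMap.ker fC := by
    rw [Submodule.span_le]
    rintro _ ⟨ψ, hψ, rfl⟩
    change fC (cx ψ) = 0
    rw [hfC, hfS ψ hψ, Rat.cast_zero]
  apply hf
  have h1 : cx φ = ∑ σ : (∀ k, F k →ₐ[ℚ] ℂ), coef φ σ • (fun v : (∀ k, F k) => ∏ k, σ k (v k)) := by
    funext v
    rw [Finset.sum_apply]
    exact eq_sum_coef φ v
  have h2 : ((f φ : ℚ) : ℂ) = 0 := by
    rw [← hfC, h1, map_sum]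
    refine Finset.sum_eq_zero fun σ _ => ?_
    rw [map_smul]
    by_cases h0 : coef φ σ = 0
    · rw [h0, zero_smul]
    · have h3 : fC (fun v : (∀ k, F k) => ∏ k, σ k (v k)) = 0 := hkill (h σ h0)
      rw [h3, smul_zero]
  exact_mod_cast h2

end span

section prodPair

variable {n : ℕ} {M : Fin n → Type*} [∀ k, AddCommGroup (M k)] [∀ k, Module ℚ (M k)]

lemma pair_linear (τ : Equiv.Perm (Fin n)) (hτ : ∀ k, τ (τ k) = k) (hτ' : ∀ k, τ k ≠ k)
    (B : ∀ k, M k →ₗ[ℚ] M (τ k) →ₗ[ℚ] ℚ) (v : ∀ k, M k) (l : Fin n) :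
    ∃ Λ : M l →ₗ[ℚ] ℚ, ∀ z, ∏ k with k < τ k,
      B k (Function.update v l z k) (Function.update v l z (τ k)) = Λ z := by
  classical
  -- the factor that contains `l`
  have key : ∀ k0 : Fin n, k0 < τ k0 → (k0 = l ∨ τ k0 = l) →
      ∀ z, ∏ k with k < τ k, B k (Function.update v l z k) (Function.update v l z (τ k)) =
        (∏ k ∈ (Finset.univ.filter fun k => k < τ k).erase k0, B k (v k) (v (τ k))) *
          B k0 (Function.update v l z k0) (Function.update v l z (τ k0)) := by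
    intro k0 h0 hl z
    rw [← Finset.mul_prod_erase _ _ (Finset.mem_filter.2 ⟨Finset.mem_univ k0, h0⟩), mul_comm]
    congr 1
    refine Finset.prod_congr rfl fun k hk => ?_
    have hk1 := Finset.ne_of_mem_erase hk
    have hk2 := (Finset.mem_filter.1 (Finset.mem_of_mem_erase hk)).2
    have e1 : k ≠ l := by
      rcases hl with hl | hl
      · rw [← hl]; exact hk1
      · intro h
        have h3 : τ k = k0 := by rw [h, ← hl, hτ]
        rw [h3, h, ← hl] at hk2
        exact absurd hk2 h0.asymm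
    have e2 : τ k ≠ l := by
      rcases hl with hl | hl
      · intro h
        have h3 : k = τ k0 := by rw [hl, ← h, hτ]
        rw [h3, hτ] at hk2
        exact absurd hk2 h0.asymm
      · intro h
        exact hk1 (τ.injective (h.trans hl.symm))
    rw [Function.update_of_ne e1, Function.update_of_ne e2]
  rcases lt_or_gt_of_ne (hτ' l) with h | h
  · -- `τ l < l`
    obtain ⟨k0, rfl⟩ : ∃ k0, τ k0 = l := ⟨τ l, hτ l⟩
    rw [hτ] at h
    refine ⟨(∏ k ∈ (Finset.univ.filter fun k => k < τ k).erase k0, B k (v k) (v (τ k))) •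
      B k0 (v k0), fun z => ?_⟩
    rw [key k0 h (Or.inr rfl) z, Function.update_self, Function.update_of_ne (hτ' k0).symm]
    rfl
  · refine ⟨(∏ k ∈ (Finset.univ.filter fun k => k < τ k).erase l, B k (v k) (v (τ k))) •
      (B l).flip (v (τ l)), fun z => ?_⟩
    rw [key l h (Or.inl rfl) z, Function.update_self, Function.update_of_ne (hτ' l)]
    rfl

/-- a product of pairings over a perfect matching as a multilinear form -/
noncomputable def prodPair (τ : Equiv.Perm (Fin n)) (hτ : ∀ k, τ (τ k) = k) (hτ' : ∀ k, τ k ≠ k)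
    (B : ∀ k, M k →ₗ[ℚ] M (τ k) →ₗ[ℚ] ℚ) : MultilinearMap ℚ M ℚ where
  toFun v := ∏ k with k < τ k, B k (v k) (v (τ k))
  map_update_add' := by
    intro inst v l x y
    have hi : inst = instDecidableEqFin n := Subsingleton.elim _ _
    subst hi
    obtain ⟨Λ, hΛ⟩ := pair_linear τ hτ hτ' B v l
    rw [hΛ, hΛ, hΛ, map_add]
  map_update_smul' := by
    intro inst v l c x
    have hi : inst = instDecidableEqFin n := Subsingleton.elim _ _
    subst hi
    obtain ⟨Λ, hΛ⟩ := pair_linear τ hτ hτ' B v l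
    rw [hΛ, hΛ, map_smul]

end prodPair

lemma conj_variable {I : Type*} {E : I → Type*} [∀ i, Field (E i)]
    [∀ i, NumberField (E i)] [∀ i, IsCMField (E i)] (σ₀ : ∀ i, E i →ₐ[ℚ] ℂ) (w : I → ℤ)
    {i j : I} (σ : E i →ₐ[ℚ] ℂ) (σ' : E j →ₐ[ℚ] ℂ)
    (h : (⟨j, σ'⟩ : Σ i, E i →ₐ[ℚ] ℂ) = ⟨i, conjEmb σ⟩) :
    ∃ c : E j →ₐ[ℚ] E i, (∀ y, σ (c y) = σ' y) ∧
      ∀ ρ : E i →ₐ[ℚ] ℂ, hodgeDiff (σ₀ j) (w j) (ρ.comp c) = - hodgeDiff (σ₀ i) (w i) ρ := by
  obtain ⟨rfl, h2⟩ := Sigma.mk.inj_iff.1 h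
  have h3 : σ' = conjEmb σ := eq_of_heq h2
  subst h3
  refine ⟨((complexConj (E j)).restrictScalars ℚ : E j ≃ₐ[ℚ] E j), fun y => (conjEmb_eq σ y).symm,
    fun ρ => ?_⟩
  have h4 : ρ.comp (((complexConj (E j)).restrictScalars ℚ : E j ≃ₐ[ℚ] E j) : E j →ₐ[ℚ] E j) =
      conjEmb ρ := by
    ext y
    exact (conjEmb_eq ρ y).symm
  rw [h4, hodgeDiff_conj _ (conjEmb_ne _)]

/-- **Hodge classes on products of structures of K3 type** -/
theorem pairings {I : Type*} [Finite I] {E : I → Type*} [∀ i, Field (E i)]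
    [∀ i, NumberField (E i)] [∀ i, IsCMField (E i)] (σ₀ : ∀ i, E i →ₐ[ℚ] ℂ) (w : I → ℤ)
    (hw : ∀ i, w i ≠ 0)
    (hreal : ∀ i, ∀ z ∈ (σ₀ i).fieldRange ⊓ ⨆ j ∈ {j | j ≠ i},
      (⨆ σ : E i →ₐ[ℚ] ℂ, σ.fieldRange) ⊓ (σ₀ j).fieldRange, z.im = 0)
    {n : ℕ} (t : Fin n → I) (φ : MultilinearMap ℚ (fun k => E (t k)) ℚ)
    (hφ : IsHodge σ₀ w t φ) :
    φ ∈ Submodule.span ℚ {ψ | IsProductOfHodgePairings σ₀ w t ψ} := by
  classical
  obtain ⟨c0, hc1, hc2⟩ := hφ
  have hc : c0 = coef φ := coef_unique φ c0 hc1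
  rw [hc] at hc2
  refine mem_span_of_mono φ _ fun σ hσ => ?_
  obtain ⟨τ, hτ1, hτ2, hτ3⟩ := Pool.Agent.H485R3.exists_matching'
    (S := Σ i, E i →ₐ[ℚ] ℂ) (fun y => ⟨y.1, conjEmb y.2⟩)
    (fun y => by rw [conjEmb_conjEmb]) (fun k => ⟨t k, σ k⟩)
    (fun k h => conjEmb_ne (σ k) (eq_of_heq (Sigma.mk.inj_iff.1 h).2))
    (fun y => by
      have h1 := balanced σ₀ w hw hreal t φ hc2 σ hσ y.1 y.2
      rw [← Nat.card_eq_fintype_card, ← Nat.card_eq_fintype_card]
      exact h1)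
  choose c hc3 hc4 using fun k => conj_variable σ₀ w (σ k) (σ (τ k)) (hτ3 k)
  let d : Fin n → ℕ := fun k => Module.finrank ℚ (E (t k))
  let B : (∀ k, Fin (Module.finrank ℚ (E (t k)))) → ∀ k, E (t k) →ₗ[ℚ] E (t (τ k)) →ₗ[ℚ] ℚ :=
    fun R k => LinearMap.mk₂ ℚ
      (fun x y => Algebra.trace ℚ (E (t k)) (db (E (t k)) (R k) * (x * c k y)))
      (fun x x' y => by rw [add_mul, mul_add, map_add])
      (fun a x y => by rw [smul_mul_assoc, mul_smul_comm, map_smul])
      (fun x y y' => by rw [map_add, mul_add, mul_add, map_add])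
      (fun a x y => by
        rw [show c k (a • y) = a • c k y from (c k).toLinearMap.map_smul a y, mul_smul_comm,
          mul_smul_comm, map_smul])
  have hB : ∀ R k x y, B R k x y =
      Algebra.trace ℚ (E (t k)) (db (E (t k)) (R k) * (x * c k y)) := fun R k x y => rfl
  let ψ : (∀ k, Fin (Module.finrank ℚ (E (t k)))) → MultilinearMap ℚ (fun k => E (t k)) ℚ :=
    fun R => prodPair τ hτ1 hτ2 (B R)
  have hψ : ∀ R v, ψ R v = ∏ k with k < τ k,
      Algebra.trace ℚ (E (t k)) (db (E (t k)) (R k) * (v k * c k (v (τ k)))) := fun R v => rfl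
  have hS : ∀ R, ψ R ∈ {ψ | IsProductOfHodgePairings σ₀ w t ψ} := by
    intro R
    refine ⟨τ, B R, hτ1, hτ2, fun k => congrArg Sigma.fst (hτ3 k), fun k => ?_, fun v => rfl⟩
    refine ⟨fun ρ ρ' => if ρ' = ρ.comp (c k) then ρ (db (E (t k)) (R k)) else 0, ?_, ?_⟩
    · intro x y
      have h1 : ((B R k x y : ℚ) : ℂ) =
          ∑ ρ : E (t k) →ₐ[ℚ] ℂ, ρ (db (E (t k)) (R k) * (x * c k y)) := by
        rw [hB, ← trace_eq_sum_embeddings ℂ]
        rfl
      rw [h1]
      refine Finset.sum_congr rfl fun ρ _ => ?_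
      rw [Finset.sum_eq_single (ρ.comp (c k))]
      · beta_reduce
        rw [if_pos rfl, map_mul, map_mul]
        rfl
      · intro ρ' _ h
        beta_reduce
        rw [if_neg h, zero_mul]
      · intro h
        exact absurd (Finset.mem_univ _) h
    · intro ρ ρ' h
      have h1 : ρ' = ρ.comp (c k) := by
        by_contra h2
        exact h (if_neg h2)
      rw [h1, hc4, add_neg_cancel]
  -- expansion of the monomial
  have hpos : ∀ k, 0 < Module.finrank ℚ (E (t k)) := fun k => Module.finrank_pos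
  let a : ∀ k, Fin (Module.finrank ℚ (E (t k))) → ℂ := fun k r =>
    if k < τ k then σ k (bs (E (t k)) r) else if r = ⟨0, hpos k⟩ then 1 else 0
  have hmono : (fun v : (∀ k, E (t k)) => ∏ k, σ k (v k)) =
      ∑ R : (∀ k, Fin (Module.finrank ℚ (E (t k)))), (∏ k, a k (R k)) • cx (ψ R) := by
    funext v
    rw [Finset.sum_apply]
    have h1 : ∏ k, σ k (v k) = ∏ k with k < τ k, σ k (v k * c k (v (τ k))) := by
      have h2 : ∏ k with k < τ k, σ (τ k) (v (τ k)) = ∏ k with ¬ k < τ k, σ k (v k) := by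
        refine Finset.prod_bij' (fun k _ => τ k) (fun k _ => τ k) ?_ ?_ (fun k _ => hτ1 k)
          (fun k _ => hτ1 k) (fun k _ => rfl)
        · intro k hk
          simp only [Finset.mem_filter, Finset.mem_univ, true_and] at hk ⊢
          rw [hτ1]
          exact hk.asymm
        · intro k hk
          simp only [Finset.mem_filter, Finset.mem_univ, true_and] at hk ⊢
          rw [hτ1]
          exact lt_of_le_of_ne (not_lt.1 hk) (hτ2 k)
      rw [← Finset.prod_filter_mul_prod_filter_not Finset.univ (fun k => k < τ k), ← h2,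
        ← Finset.prod_mul_distrib]
      refine Finset.prod_congr rfl fun k _ => ?_
      rw [map_mul, hc3]
    have h3 : ∀ k, (if k < τ k then σ k (v k * c k (v (τ k))) else 1) =
        ∑ r : Fin (Module.finrank ℚ (E (t k))), a k r * (if k < τ k then
          ((Algebra.trace ℚ (E (t k)) (db (E (t k)) r * (v k * c k (v (τ k)))) : ℚ) : ℂ) else 1) := by
      intro k
      by_cases hk : k < τ k
      · simp only [a, if_pos hk]
        have h4 : v k * c k (v (τ k)) = ∑ r, Algebra.trace ℚ (E (t k))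
            (db (E (t k)) r * (v k * c k (v (τ k)))) • bs (E (t k)) r := by
          conv_lhs => rw [← (bs (E (t k))).sum_repr (v k * c k (v (τ k)))]
          exact Finset.sum_congr rfl fun r _ => by rw [repr_eq_trace]
        conv_lhs => rw [h4, map_sum]
        refine Finset.sum_congr rfl fun r _ => ?_
        rw [show σ k (Algebra.trace ℚ (E (t k)) (db (E (t k)) r * (v k * c k (v (τ k)))) •
            bs (E (t k)) r) = Algebra.trace ℚ (E (t k)) (db (E (t k)) r *
              (v k * c k (v (τ k)))) • σ k (bs (E (t k)) r) from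
            (σ k).toLinearMap.map_smul _ _, Algebra.smul_def, mul_comm]
        rfl
      · simp only [a, if_neg hk, mul_one]
        rw [Finset.sum_ite_eq' Finset.univ (⟨0, hpos k⟩ : Fin (Module.finrank ℚ (E (t k)))),
          if_pos (Finset.mem_univ _)]
    rw [h1, Finset.prod_filter, Finset.prod_congr rfl (fun k _ => h3 k), Finset.prod_univ_sum,
      Fintype.piFinset_univ]
    refine Finset.sum_congr rfl fun R _ => ?_
    rw [Finset.prod_mul_distrib, ← Finset.prod_filter]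
    change _ = (∏ k, a k (R k)) * ((ψ R v : ℚ) : ℂ)
    rw [hψ]
    push_cast
    rfl
  rw [hmono]
  refine Submodule.sum_mem _ fun R _ => Submodule.smul_mem _ _ (Submodule.subset_span ?_)
  exact ⟨ψ R, hS R, rfl⟩

end Pool.Agent.Q73.CM

namespace Pool.Agent.Q73.CM

section cond

variable {I : Type*} {E : I → Type*} [∀ i, Field (E i)] [∀ i, NumberField (E i)]
  (σ₀ : ∀ i, E i →ₐ[ℚ] ℂ)

/-- the real numbers as an extension of `ℚ` in `ℂ` -/
noncomputable def RR : IntermediateField ℚ ℂ := (Complex.ofRealAm.restrictScalars ℚ).fieldRange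

lemma mem_RR {z : ℂ} : z ∈ RR ↔ z.im = 0 := by
  constructor
  · rintro ⟨r, rfl⟩
    exact Complex.ofReal_im r
  · intro h
    exact ⟨z.re, Complex.ext rfl h.symm⟩

lemma range_galois {K : Type*} [Field K] [NumberField K] [IsGalois ℚ K] (σ σ' : K →ₐ[ℚ] ℂ) :
    σ'.fieldRange ≤ σ.fieldRange := by
  rintro _ ⟨y, rfl⟩
  have hint : IsIntegral ℚ y := Algebra.IsIntegral.isIntegral y
  obtain ⟨x, -, hx⟩ := Pool.Agent.H485R3.exists_root_lift (minpoly.ne_zero hint)
    (Normal.splits (inferInstance : Normal ℚ K) y) σ (σ' y) (by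
      rw [Polynomial.aeval_algHom_apply, minpoly.aeval, map_zero])
  exact ⟨x, hx⟩

/-- pairwise real intersections suffice for two fields and for Galois fields -/
lemma real_of_pairwise (hp : ∀ i j, i ≠ j → (σ₀ i).fieldRange ⊓ (σ₀ j).fieldRange ≤ RR)
    (h : (∀ i, IsGalois ℚ (E i)) ∨ ∀ i j k : I, i ≠ j → i ≠ k → j = k) (i : I) :
    (σ₀ i).fieldRange ⊓ ⨆ j ∈ {j | j ≠ i},
      (⨆ σ : E i →ₐ[ℚ] ℂ, σ.fieldRange) ⊓ (σ₀ j).fieldRange ≤ RR := by
  rcases h with h | h
  · refine inf_le_right.trans (iSup₂_le fun j hj => ?_)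
    refine le_trans (inf_le_inf_right _ (iSup_le fun σ => ?_)) (hp i j (Ne.symm hj))
    have := h i
    exact range_galois (σ₀ i) σ
  · by_cases hex : ∃ j, j ≠ i
    · obtain ⟨j, hj⟩ := hex
      refine le_trans (inf_le_inf_left _ (iSup₂_le fun k hk => ?_)) (hp i j (Ne.symm hj))
      have : k = j := h i k j (Ne.symm hk) (Ne.symm hj)
      subst this
      exact inf_le_right
    · refine inf_le_right.trans (iSup₂_le fun j hj => ?_)
      exact absurd ⟨j, hj⟩ hex

end cond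

end Pool.Agent.Q73.CM
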